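import Mathlib

set_option autoImplicit false

namespace Pool.Agent.Results.MP_6a83a4_lc.Closed

open Set Filter Topology Function

abbrev B := ℕ → ℕ

def pre (w : B) (n : ℕ) : ℕ := Nat.pair n (Encodable.encode ((List.range n).map w))
def get (c n : ℕ) : ℕ := ((Encodable.decode (α := List ℕ) (Nat.unpair c).2).getD []).getD n 0

lemma le_pre (w : B) (n : ℕ) : n ≤ pre w n := Nat.left_le_pair _ _
lemma get_pre (w : B) {n N : ℕ} (h : n < N) : get (pre w N) n = w n := by simp [get, pre, h]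
lemma pre_eq {u v : B} {n m : ℕ} : pre u n = pre v m ↔ n = m ∧ ∀ i < n, u i = v i := by
  constructor
  · intro h
    obtain rfl : n = m := (Nat.pair_eq_pair.1 h).1
    exact ⟨rfl, fun i hi => by rw [← get_pre u hi, h, get_pre v hi]⟩
  · rintro ⟨rfl, h⟩
    unfold pre
    rw [List.map_congr_left fun i hi => h i (List.mem_range.1 hi)]

def g (i : B) : B := fun k => i (2 * k + 2)
def gi (i : B) : B := fun k => i (2 * k + 3)
def I : Set B := {i | i 1 ≤ 1 ∧ ∀ k, g i (gi i k) = k ∧ gi i (g i k) = k}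
def U (j : B) (n : ℕ) : ℕ := 2 * pre j (n + 2) + (1 - j 1)
def D (j : B) (m : ℕ) : ℕ := 3 * pre j m + 1
def R (v' a' v a : ℕ) : Prop := ∃ j ∈ I, v' = U j a' ∧ v = U j a
def Bp (f : B) (p a : ℕ) : Prop := (∃ n, a = 3 * pre f n + 2) ∧ f a % 2 = p
open Classical in
noncomputable def par (f : B) (p a : ℕ) : ℕ :=
  (Finset.range a).sup fun a' => if Bp f p a' ∧ R (f a') a' (f a) a then a' + 1 else 0
def H (i : B) (a : ℕ) : Prop := Bp (g i) (i 1) a ∧ par (g i) (i 1) a = i 0
def Rel (i : B) (a b : ℕ) : Prop :=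
  (H i a → b = g i a) ∧ (¬ H i a → b = U i a ∨ (¬ H i (gi i b) ∧ a = D i b))
def Sol (i φ : B) : Prop := i ∈ I ∧ Bijective φ ∧ ∀ a, Rel i a (φ a)

lemma lt_U (j : B) (n : ℕ) : n < U j n := by have := le_pre j (n + 2); unfold U; omega
lemma lt_D (j : B) (n : ℕ) : n < D j n := by have := le_pre j n; unfold D; omega
lemma U_eq {i j : B} {n m : ℕ} (h : U i n = U j m) : n = m ∧ ∀ k < n + 2, i k = j k := by
  have : pre i (n + 2) = pre j (m + 2) := by unfold U at h; omega
  exact ⟨by have := (pre_eq.1 this).1; omega, (pre_eq.1 this).2⟩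
lemma D_eq {i j : B} {n m : ℕ} (h : D i n = D j m) : n = m ∧ ∀ k < n, i k = j k :=
  pre_eq.1 (by unfold D at h; omega)
lemma notH_D (i j : B) (m : ℕ) : ¬ H i (D j m) := by
  rintro ⟨⟨⟨n, h⟩, -⟩, -⟩; unfold D at h; omega

lemma par_le (f : B) (p a : ℕ) : par f p a ≤ a :=
  Finset.sup_le fun b hb => by have := Finset.mem_range.1 hb; split_ifs <;> omega
lemma lt_par {f : B} {p a a' : ℕ} (h : a' < a) (h1 : Bp f p a') (h2 : R (f a') a' (f a) a) :
    a' < par f p a := by
  classical
  have := Finset.le_sup (f := fun a' => if Bp f p a' ∧ R (f a') a' (f a) a then a' + 1 else 0)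
    (Finset.mem_range.2 h)
  simp only [h1, h2, and_self, if_true] at this
  exact this
lemma par_spec {f : B} {p a a' : ℕ} (h : par f p a = a' + 1) :
    a' < a ∧ Bp f p a' ∧ R (f a') a' (f a) a := by
  classical
  obtain ⟨b, hb, e⟩ := Finset.exists_mem_eq_sup (Finset.range a) (by
    have := par_le f p a
    exact ⟨0, Finset.mem_range.2 (by omega)⟩)
    (fun a' => if Bp f p a' ∧ R (f a') a' (f a) a then a' + 1 else 0)
  have e' : a' + 1 = _ := h.symm.trans e
  split_ifs at e' with h1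
  obtain rfl : a' = b := by omega
  exact ⟨Finset.mem_range.1 hb, h1⟩

lemma ex_sol {i : B} (hi : i ∈ I) : ∃ φ, Sol i φ := by
  classical
  obtain ⟨φ, h1, h2⟩ := Embedding.schroeder_bernstein_of_rel
    (f := fun a => if H i a then g i a else U i a) (g := fun m => if H i (gi i m) then gi i m else D i m)
    (by
      have key : ∀ a b, H i a → g i a ≠ U i b := fun a b h e => by
        have := h.1.2; have := hi.1; unfold U at e; omega
      intro a b h
      simp only at h
      split_ifs at h with h1 h2 h2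
      · rw [← (hi.2 a).2, h, (hi.2 b).2]
      · exact absurd h (key _ _ h1)
      · exact absurd h.symm (key _ _ h2)
      · exact (U_eq h).1)
    (by
      intro a b h
      simp only at h
      split_ifs at h with h1 h2 h2
      · rw [← (hi.2 a).1, h, (hi.2 b).1]
      · exact absurd (h ▸ h1) (notH_D _ _ _)
      · exact absurd (h ▸ h2) (notH_D _ _ _)
      · exact (D_eq h).1) (Rel i)
    (fun a => ⟨fun h => if_pos h, fun h => Or.inl (if_neg h)⟩)
    (fun b => by
      split_ifs with h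
      · exact ⟨fun _ => (hi.2 b).1.symm, fun h' => absurd h h'⟩
      · exact ⟨fun h' => absurd h' (notH_D _ _ _), fun _ => Or.inr ⟨h, rfl⟩⟩)
  exact ⟨φ, hi, h1, h2⟩

lemma uniq {i φ ψ : B} (h1 : Sol i φ) (h2 : Sol i ψ) : φ = ψ := by
  funext a
  induction a using Nat.strong_induction_on with
  | _ a ih =>
  have key : ∀ {φ ψ : B}, Sol i φ → Sol i ψ → (∀ n < a, φ n = ψ n) → φ a = U i a →
      ¬ H i (gi i (ψ a)) → a = D i (ψ a) → False := by
    intro φ ψ h1 h2 ih e1 e2 e3
    obtain ⟨n, hn⟩ := h1.2.1.2 (ψ a)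
    have l1 := lt_D i (ψ a)
    have l2 := lt_U i a
    by_cases hH : H i n
    · rw [← hn, (h1.2.2 n).1 hH, (h1.1.2 n).2] at e2
      exact e2 hH
    · rcases (h1.2.2 n).2 hH with h | h
      · have := lt_U i n
        have := h2.2.1.1 ((ih n (by omega)).symm.trans hn)
        omega
      · rw [hn, ← e3] at h
        rw [h.2] at hn
        omega
  by_cases hH : H i a
  · rw [(h1.2.2 a).1 hH, (h2.2.2 a).1 hH]
  · rcases (h1.2.2 a).2 hH with h | h <;> rcases (h2.2.2 a).2 hH with h' | h'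
    · rw [h, h']
    · exact (key h1 h2 ih h h'.1 h'.2).elim
    · exact (key h2 h1 (fun n hn => (ih n hn).symm) h' h.1 h.2).elim
    · exact (D_eq (h.2.symm.trans h'.2)).1

lemma fin_HU (i : B) {j : B} (hj : j ∈ I) : {a | H i a ∧ g i a = U j a}.Finite := by
  have key : ∀ a a', a' < a → H i a → g i a = U j a → H i a' → g i a' = U j a' → False := by
    intro a a' h h1 h2 h3 h4
    have := lt_par h h3.1 ⟨j, hj, h4, h2⟩
    have := par_le (g i) (i 1) a'
    have := h1.2; have := h3.2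
    omega
  refine Set.Subsingleton.finite fun a ha b hb => ?_
  rcases lt_trichotomy a b with h | h | h
  · exact (key _ _ h hb.1 hb.2 ha.1 ha.2).elim
  · exact h
  · exact (key _ _ h ha.1 ha.2 hb.1 hb.2).elim

lemma fin_HH {i j : B} (hi : i ∈ I) (hj : j ∈ I) (h : i ≠ j) : {a | H i a ∧ H j a}.Finite := by
  by_cases hg : g i = g j
  · convert finite_empty
    refine eq_empty_of_forall_notMem fun a ⟨h1, h2⟩ => h (funext fun k => ?_)
    have e1 : i 1 = j 1 := by rw [← h1.1.2, ← h2.1.2, hg]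
    have e0 : i 0 = j 0 := by rw [← h1.2, ← h2.2, hg, e1]
    obtain rfl | rfl | ⟨l, rfl⟩ | ⟨l, rfl⟩ : k = 0 ∨ k = 1 ∨ (∃ l, k = 2 * l + 2) ∨ ∃ l, k = 2 * l + 3 := by
      rcases Nat.even_or_odd' k with ⟨l, rfl | rfl⟩
      · rcases l with _ | l
        · exact Or.inl rfl
        · exact Or.inr (Or.inr (Or.inl ⟨l, by ring⟩))
      · rcases l with _ | l
        · exact Or.inr (Or.inl rfl)
        · exact Or.inr (Or.inr (Or.inr ⟨l, by ring⟩))
    · exact e0
    · exact e1
    · exact congrFun hg l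
    · show gi i l = gi j l
      rw [← (hj.2 (gi i l)).2, ← hg, (hi.2 l).1]
  · obtain ⟨k, hk⟩ := Function.ne_iff.1 hg
    refine ((finite_Iic k).image fun n => 3 * pre (g i) n + 2).subset ?_
    rintro a ⟨⟨⟨⟨n, rfl⟩, -⟩, -⟩, ⟨⟨m, hm⟩, -⟩, -⟩
    refine ⟨n, ?_, rfl⟩
    by_contra h1
    exact hk ((pre_eq.1 (by omega : pre (g i) n = pre (g j) m)).2 k (not_le.1 h1))

lemma ed {i j φ ψ : B} (h1 : Sol i φ) (h2 : Sol j ψ) (h : φ ≠ ψ) : {n | φ n = ψ n}.Finite := by
  have hij : i ≠ j := by rintro rfl; exact h (uniq h1 h2)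
  obtain ⟨k, hk⟩ := Function.ne_iff.1 hij
  refine ((((fin_HH h1.1 h2.1 hij).union (fin_HU i h2.1)).union (fin_HU j h1.1)).union
    ((finite_Iic k).union ((finite_Iic k).image (D i)))).subset fun a (ha : φ a = ψ a) => ?_
  have := lt_U i a
  have := lt_U j a
  have := lt_D i (φ a)
  have := lt_D j (ψ a)
  by_cases hi : H i a <;> by_cases hj : H j a
  · exact Or.inl (Or.inl (Or.inl ⟨hi, hj⟩))
  · rcases (h2.2.2 a).2 hj with h | h
    · exact Or.inl (Or.inl (Or.inr ⟨hi, by rw [← (h1.2.2 a).1 hi, ha, h]⟩))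
    · exact absurd (h.2 ▸ hi) (notH_D _ _ _)
  · rcases (h1.2.2 a).2 hi with h | h
    · exact Or.inl (Or.inr ⟨hj, by rw [← (h2.2.2 a).1 hj, ← ha, h]⟩)
    · exact absurd (h.2 ▸ hj) (notH_D _ _ _)
  · rcases (h1.2.2 a).2 hi with h | h <;> rcases (h2.2.2 a).2 hj with h' | h'
    · refine Or.inr (Or.inl ?_)
      by_contra h3
      exact hk ((U_eq (h.symm.trans (ha.trans h'))).2 k (by simp at h3; omega))
    · omega
    · omega
    · refine Or.inr (Or.inr ⟨φ a, ?_, h.2.symm⟩)
      by_contra h3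
      exact hk ((D_eq (h.2.symm.trans h'.2)).2 k (not_le.1 h3))

lemma cont_of_fin {T : B → ℕ} (N : ℕ) (h : ∀ u v, (∀ i < N, u i = v i) → T u = T v) : Continuous T := by
  have : T = (fun u : Fin N → ℕ => T fun i => if h : i < N then u ⟨i, h⟩ else 0) ∘
      fun (w : B) (i : Fin N) => w i := funext fun w => h _ _ fun i hi => by simp [hi]
  rw [this]
  exact continuous_of_discreteTopology.comp (by fun_prop)

lemma cont2 {X : Type} [TopologicalSpace X] {T : B → ℕ → ℕ} (hT : ∀ n, Continuous fun u => T u n)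
    {c : X → B} {t : X → ℕ} (hc : Continuous c) (ht : Continuous t) : Continuous fun x => T (c x) (t x) :=
  (continuous_prod_of_discrete_right.2 hT : Continuous fun p : B × ℕ => T p.1 p.2).comp (hc.prodMk ht)

lemma closed_disc {X E : Type} [TopologicalSpace X] [TopologicalSpace E] [DiscreteTopology E]
    {T : X → E} (hT : Continuous T) (Q : E → Prop) : IsClosed {x | Q (T x)} :=
  (isClosed_discrete {d | Q d}).preimage hT

lemma pre_cont (n : ℕ) : Continuous fun u => pre u n := cont_of_fin n fun _ _ h => pre_eq.2 ⟨rfl, h⟩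
lemma g_cont (n : ℕ) : Continuous fun u => g u n := continuous_apply _
lemma gi_cont (n : ℕ) : Continuous fun u => gi u n := continuous_apply _
lemma U_cont (n : ℕ) : Continuous fun u => U u n := cont_of_fin (n + 2) fun u v h => by
  unfold U; rw [pre_eq.2 ⟨rfl, h⟩, h 1 (by omega)]
lemma D_cont (n : ℕ) : Continuous fun u => D u n := cont_of_fin n fun u v h => by
  unfold D; rw [pre_eq.2 ⟨rfl, h⟩]

lemma I_closed : IsClosed I := by
  refine (closed_disc (continuous_apply 1) (· ≤ 1)).inter ?_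
  show IsClosed {i | ∀ k, _}
  rw [ofPred_forall]
  exact isClosed_iInter fun k => (isClosed_eq (cont2 g_cont continuous_id (gi_cont k)) continuous_const).inter
    (isClosed_eq (cont2 gi_cont continuous_id (g_cont k)) continuous_const)

lemma Bp_congr {u v : B} {a : ℕ} (h : ∀ i ≤ a, u i = v i) (p : ℕ) : Bp u p a ↔ Bp v p a := by
  unfold Bp
  rw [h a le_rfl]
  refine and_congr_left fun _ => ⟨fun ⟨n, hn⟩ => ⟨n, ?_⟩, fun ⟨n, hn⟩ => ⟨n, ?_⟩⟩
  · have := le_pre u n
    rw [← pre_eq.2 ⟨rfl, fun i hi => h i (by omega)⟩]; exact hn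
  · have := le_pre v n
    rw [pre_eq.2 ⟨rfl, fun i hi => h i (by omega)⟩]; exact hn

open Classical in
noncomputable def χ (i : B) (a : ℕ) : ℕ := if H i a then 1 else 0
lemma χ_iff (i : B) (a : ℕ) : H i a ↔ χ i a = 1 := by unfold χ; split_ifs with h <;> simp [h]

lemma χ_cont (a : ℕ) : Continuous fun i => χ i a := cont_of_fin (2 * a + 3) fun u v h => by
  have hg : ∀ k ≤ a, g u k = g v k := fun k hk => h _ (by omega)
  have : par (g u) (v 1) a = par (g v) (v 1) a := Finset.sup_congr rfl fun b hb => by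
    have := Finset.mem_range.1 hb
    rw [Bp_congr (fun i hi => hg i (by omega)), hg a le_rfl, hg b (by omega)]
  unfold χ H
  rw [h 0 (by omega), h 1 (by omega), Bp_congr hg, this]

def dec (φ : B) : B := fun n => get (φ (3 * n) / 2) n

lemma dec_cont : Continuous dec := continuous_pi fun n =>
  (continuous_of_discreteTopology (f := fun x => get (x / 2) n)).comp (continuous_apply _)

lemma dec_sol {i φ : B} (h : Sol i φ) : dec φ = i := by
  funext n
  have hH : ¬ H i (3 * n) := by rintro ⟨⟨⟨n, h⟩, -⟩, -⟩; omega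
  rcases (h.2.2 _).2 hH with h1 | h1
  · have : φ (3 * n) / 2 = pre i (3 * n + 2) := by unfold U at h1; omega
    unfold dec
    rw [this, get_pre _ (by omega)]
  · have := h1.2; unfold D at this; omega

lemma F_closed : IsClosed {φ | ∃ i, Sol i φ} := by
  have : {φ | ∃ i, Sol i φ} = dec ⁻¹' I ∩ ((⋂ a, ⋂ b, {φ : B | φ a = φ b → a = b}) ∩
      ((⋂ m, {φ | ∃ n < m + gi (dec φ) m + D (dec φ) m + 1,
        get (pre φ (m + gi (dec φ) m + D (dec φ) m + 1)) n = m}) ∩ ⋂ a, {φ | Rel (dec φ) a (φ a)})) := by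
    ext φ
    simp only [mem_ofPred_eq, mem_inter_iff, mem_iInter, mem_preimage]
    constructor
    · rintro ⟨i, h⟩
      rw [dec_sol h]
      refine ⟨h.1, fun a b e => h.2.1.1 e, fun m => ?_, h.2.2⟩
      obtain ⟨n, rfl⟩ := h.2.1.2 m
      have : n < φ n + gi i (φ n) + D i (φ n) + 1 := by
        by_cases hH : H i n
        · have := (h.1.2 n).2
          rw [← (h.2.2 n).1 hH] at this; omega
        · rcases (h.2.2 n).2 hH with h1 | h1
          · have := lt_U i n; omega
          · omega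
      exact ⟨n, this, get_pre _ this⟩
    · rintro ⟨h1, h2, h3, h4⟩
      refine ⟨_, h1, ⟨fun a b => h2 a b, fun m => ?_⟩, h4⟩
      obtain ⟨n, hn, e⟩ := h3 m
      exact ⟨n, by rwa [get_pre _ hn] at e⟩
  rw [this]
  refine (I_closed.preimage dec_cont).inter ((isClosed_iInter fun a => isClosed_iInter fun b =>
    closed_disc ((continuous_apply a).prodMk (continuous_apply b)) fun d : ℕ × ℕ => d.1 = d.2 → a = b).inter
    ((isClosed_iInter fun m => ?_).inter (isClosed_iInter fun a => ?_)))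
  · have h1 : Continuous fun φ => m + gi (dec φ) m + D (dec φ) m + 1 :=
      ((continuous_const.add ((gi_cont m).comp dec_cont)).add ((D_cont m).comp dec_cont)).add continuous_const
    exact closed_disc (h1.prodMk (cont2 pre_cont continuous_id h1)) fun d => ∃ n < d.1, get d.2 n = m
  · simp only [Rel, χ_iff]
    have h0 : Continuous fun φ : B => φ a := continuous_apply a
    exact closed_disc (h0.prodMk (((χ_cont a).comp dec_cont).prodMk (((g_cont a).comp dec_cont).prodMk
      (((U_cont a).comp dec_cont).prodMk ((cont2 χ_cont dec_cont (cont2 gi_cont dec_cont h0)).prodMk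
      (cont2 D_cont dec_cont h0))))))
      fun d => (d.2.1 = 1 → d.1 = d.2.2.1) ∧
        (¬ d.2.1 = 1 → d.1 = d.2.2.2.1 ∨ (¬ d.2.2.2.2.1 = 1 ∧ a = d.2.2.2.2.2))

lemma konig (S : Set ℕ) (hS : S.Infinite) (P : ℕ → ℕ) (hP : ∀ a, P a ≤ a)
    (hS' : ∀ a a', P a = a' + 1 → a' ∈ S) (hfin : ∀ x, {a ∈ S | P a = x}.Finite) :
    ∃ h : ℕ → ℕ, ∀ k, h k ∈ S ∧ P (h (k + 1)) = h k + 1 := by
  let T : ℕ → Set ℕ := fun x => {a | a ∈ S ∧ Relation.ReflTransGen (fun x y => ∃ a ∈ S, y = a + 1 ∧ P a = x) x (a + 1)}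
  have step : ∀ x, (T x).Infinite → ∃ a ∈ S, P a = x ∧ (T (a + 1)).Infinite := by
    intro x hx
    by_contra hc
    push Not at hc
    refine hx (((finite_Iic x).union ((hfin x).biUnion (t := fun a => T (a + 1))
      fun a ha => hc a ha.1 ha.2)).subset ?_)
    rintro a ⟨h1, h2⟩
    rcases h2.cases_head with h | ⟨_, ⟨b, hb, rfl, e⟩, h⟩
    · exact Or.inl (by simp only [mem_Iic]; omega)
    · exact Or.inr (mem_biUnion (t := fun a => T (a + 1)) (⟨hb, e⟩ : b ∈ {a ∈ S | P a = x}) ⟨h1, h⟩)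
  have h0 : (T 0).Infinite := hS.mono fun a ha => ⟨ha, by
    induction a using Nat.strong_induction_on with
    | _ a ih =>
    rcases e : P a with _ | a'
    · exact Relation.ReflTransGen.single ⟨a, ha, rfl, e⟩
    · exact (ih a' (by have := hP a; omega) (hS' _ _ e)).tail ⟨a, ha, rfl, e⟩⟩
  choose nx h1 h2 h3 using step
  let x : ℕ → {a // a ∈ S ∧ (T (a + 1)).Infinite} := fun k =>
    Nat.rec ⟨nx 0 h0, h1 _ _, h3 _ _⟩ (fun _ y => ⟨nx _ y.2.2, h1 _ _, h3 _ _⟩) k
  exact ⟨fun k => (x k).1, fun k => ⟨(x k).2.1, h2 _ _⟩⟩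

lemma maxl {f : B} (hf : Bijective f) : ∃ i φ, Sol i φ ∧ {n | φ n = f n}.Infinite := by
  obtain ⟨f', h1, h2⟩ := bijective_iff_has_inverse.1 hf
  obtain ⟨p, hp, hS⟩ : ∃ p ≤ 1, {a | Bp f p a}.Infinite := by
    by_contra hc
    push Not at hc
    refine infinite_range_of_injective (f := fun n => 3 * pre f n + 2)
      (fun a b h => (pre_eq.1 (by simp only at h; omega : pre f a = pre f b)).1)
      (((hc 0 (by omega)).union (hc 1 le_rfl)).subset ?_)
    rintro _ ⟨n, rfl⟩
    rcases Nat.mod_two_eq_zero_or_one (f (3 * pre f n + 2)) with h | h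
    · exact Or.inl ⟨⟨n, rfl⟩, h⟩
    · exact Or.inr ⟨⟨n, rfl⟩, h⟩
  by_cases hfin : ∀ x, {a ∈ {a | Bp f p a} | par f p a = x}.Finite
  · obtain ⟨h, hh⟩ := konig _ hS (par f p) (par_le f p) (fun a a' e => (par_spec e).2.1) hfin
    have hm : StrictMono h := strictMono_nat_of_lt_succ fun k => (par_spec (hh k).2).1
    choose j hj e1 e2 using fun k => (par_spec (hh k).2).2.2
    have ag : ∀ k l, k ≤ l → ∀ n < h (k + 1) + 2, j k n = j l n := by
      intro k l hkl
      induction hkl with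
      | refl => exact fun _ _ => rfl
      | @step l hl ih =>
        intro n hn
        have : h (k + 1) ≤ h (l + 1) := hm.monotone (Nat.succ_le_succ hl)
        exact (ih n hn).trans ((U_eq ((e2 l).symm.trans (e1 (l + 1)))).2 n (by omega))
    let i : B := fun n => j n n
    have ag2 : ∀ k, ∀ n < h (k + 1) + 2, i n = j k n := fun k n hn =>
      (ag n (n + k) (by omega) n (by have := hm.le_apply (x := n + 1); omega)).trans
        (ag k (n + k) (by omega) n hn).symm
    have hi : i ∈ I := I_closed.mem_of_tendsto (f := j) (b := atTop) (tendsto_pi_nhds.2 fun n =>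
      tendsto_const_nhds.congr' ((eventually_ge_atTop n).mono fun k hk =>
        ag2 k n (by have := hm.le_apply (x := k + 1); omega))) (Eventually.of_forall hj)
    have hU : ∀ k, f (h k) = U i (h k) := fun k => by
      have : h k < h (k + 1) := hm (Nat.lt_succ_self k)
      rw [e1 k]; unfold U
      rw [pre_eq.2 ⟨rfl, fun n hn => ag2 k n (by omega)⟩, ag2 k 1 (by omega)]
    obtain ⟨φ, hφ⟩ := ex_sol hi
    refine ⟨i, φ, hφ, ?_⟩
    have hfin2 : {a | (∃ n, a = 3 * pre f n + 2) ∧ H i a ∧ g i a ≠ f a}.Finite := by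
      by_cases hg : g i = f
      · simp [hg]
      · obtain ⟨k, hk⟩ := Function.ne_iff.1 hg
        refine ((finite_Iic k).image fun n => 3 * pre f n + 2).subset ?_
        rintro a ⟨⟨n, rfl⟩, ⟨⟨⟨m, hm⟩, -⟩, -⟩, -⟩
        refine ⟨n, ?_, rfl⟩
        by_contra h1
        exact hk ((pre_eq.1 (by omega : pre f n = pre (g i) m)).2 k (not_le.1 h1)).symm
    refine ((infinite_range_of_injective hm.injective).sdiff hfin2).mono ?_
    rintro _ ⟨⟨k, rfl⟩, hk⟩
    by_cases hH : H i (h k)
    · by_contra h3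
      exact hk ⟨(hh k).1.1, hH, fun e => h3 (((hφ.2.2 _).1 hH).trans e)⟩
    · rcases (hφ.2.2 _).2 hH with h3 | h3
      · exact h3.trans (hU k).symm
      · obtain ⟨n, hn⟩ := (hh k).1.1
        have := h3.2; unfold D at this; omega
  · push Not at hfin
    obtain ⟨x, hx⟩ := hfin
    let i : B := fun n => if n = 0 then x else if n = 1 then p else
      if n % 2 = 0 then f (n / 2 - 1) else f' (n / 2 - 1)
    have eg : g i = f := funext fun k => by
      have : (2 * k + 2) / 2 - 1 = k := by omega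
      simp [g, i, this]
    have egi : gi i = f' := funext fun k => by
      have : (2 * k + 3) / 2 - 1 = k := by omega
      have h3 : (2 * k + 3) % 2 = 1 := by omega
      simp [gi, i, this, h3]
    have hi : i ∈ I := ⟨hp, fun k => by rw [eg, egi]; exact ⟨h2 k, h1 k⟩⟩
    obtain ⟨φ, hφ⟩ := ex_sol hi
    refine ⟨i, φ, hφ, hx.mono fun a ha => ?_⟩
    have : H i a := by unfold H; rw [eg]; exact ha
    exact ((hφ.2.2 a).1 this).trans (congrFun eg a)

/-- There is a family of permutations of `ℕ`, closed in Baire space, that is eventually different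
and maximal among eventually different families of permutations. -/
theorem result : ∃ F : Set (ℕ → ℕ), IsClosed F ∧ (∀ f ∈ F, Function.Bijective f) ∧
    (∀ f ∈ F, ∀ f' ∈ F, f ≠ f' → {n | f n = f' n}.Finite) ∧
    ∀ h : ℕ → ℕ, Function.Bijective h → ∃ f ∈ F, {n | f n = h n}.Infinite :=
  ⟨{φ | ∃ i, Sol i φ}, F_closed, fun _ ⟨_, h⟩ => h.2.1, fun _ ⟨_, h⟩ _ ⟨_, h'⟩ => ed h h',
    fun _ hh => let ⟨i, φ, h1, h2⟩ := maxl hh; ⟨φ, ⟨i, h1⟩, h2⟩⟩

end Pool.Agent.Results.MP_6a83a4_lc.Closed
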